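import Mathlib
import Pool.Agent.H510R2.Div

/-!
# The number of solutions of `x² - D y² = k` in a box, uniformly in `D` and `k`
-/

set_option autoImplicit false

open Finset

namespace Pool.Agent.Q184.T3

/-! ## units: solutions of `U² - D V² = 4` -/

theorem gap {D U V U' V' : ℤ} (hD : 2 ≤ D) (h : U ^ 2 - D * V ^ 2 = 4)
    (h' : U' ^ 2 - D * V' ^ 2 = 4) (hU : 0 < U) (hU' : 0 < U') (hV : 0 ≤ V) (hVV : V < V') :
    9 * U ^ 2 ≤ 8 * U' ^ 2 := by
  have hV' : 0 < V' := lt_of_le_of_lt hV hVV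
  have hb : U' * V < U * V' := by
    by_contra hcon
    push Not at hcon
    have h1 : (U * V') ^ 2 ≤ (U' * V) ^ 2 := pow_le_pow_left₀ (by positivity) hcon 2
    have h2 : (U * V') ^ 2 - (U' * V) ^ 2 = 4 * (V' ^ 2 - V ^ 2) := by
      linear_combination V' ^ 2 * h - V ^ 2 * h'
    have h3 : V ^ 2 < V' ^ 2 := pow_lt_pow_left₀ hVV hV (by norm_num)
    linarith
  have ha : D * V * V' < U * U' := by
    by_contra hcon
    push Not at hcon
    have h1 : (U * U') ^ 2 ≤ (D * V * V') ^ 2 := pow_le_pow_left₀ (by positivity) hcon 2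
    have h2 : (U * U') ^ 2 = (4 + D * V ^ 2) * (4 + D * V' ^ 2) := by
      have e1 : U ^ 2 = 4 + D * V ^ 2 := by linarith
      have e2 : U' ^ 2 = 4 + D * V' ^ 2 := by linarith
      rw [mul_pow, e1, e2]
    have h3 : 0 ≤ D * V ^ 2 := by positivity
    have h4 : 0 ≤ D * V' ^ 2 := by positivity
    nlinarith
  set a := U * U' - D * V * V' with hadef
  set b := U * V' - U' * V with hbdef
  have ha0 : 0 < a := by rw [hadef]; linarith
  have hb0 : 0 < b := by rw [hbdef]; linarith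
  have hab : a ^ 2 - D * b ^ 2 = 16 := by
    rw [hadef, hbdef]
    linear_combination (U' ^ 2 - D * V' ^ 2) * h + 4 * h'
  have ha2 : 18 ≤ a ^ 2 := by
    have : 1 ≤ b ^ 2 := by nlinarith
    nlinarith
  have h4 : 4 * U' = a * U + b * D * V := by
    rw [hadef, hbdef]
    linear_combination (-U') * h
  have h5 : a * U ≤ 4 * U' := by
    rw [h4]
    have : 0 ≤ b * D * V := by positivity
    linarith
  have h6 : (a * U) ^ 2 ≤ (4 * U') ^ 2 := pow_le_pow_left₀ (by positivity) h5 2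
  have h7 : 18 * U ^ 2 ≤ (a * U) ^ 2 := by
    rw [mul_pow]
    exact mul_le_mul_of_nonneg_right ha2 (by positivity)
  nlinarith

theorem gap12 {D U V U' V' : ℤ} (hD : 2 ≤ D) (h : U ^ 2 - D * V ^ 2 = 4)
    (h' : U' ^ 2 - D * V' ^ 2 = 4) (hU : 0 < U) (hU' : 0 < U') (hV : 0 ≤ V) (hVV : V < V') :
    Nat.log 2 (U.toNat ^ 12) < Nat.log 2 (U'.toNat ^ 12) := by
  have h1 := gap hD h h' hU hU' hV hVV
  obtain ⟨u, rfl⟩ := Int.eq_ofNat_of_zero_le hU.le
  obtain ⟨u', rfl⟩ := Int.eq_ofNat_of_zero_le hU'.le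
  have hu : 0 < u := by exact_mod_cast hU
  have h2 : 9 * u ^ 2 ≤ 8 * u' ^ 2 := by exact_mod_cast h1
  have h3 : (9 * u ^ 2) ^ 6 ≤ (8 * u' ^ 2) ^ 6 := Nat.pow_le_pow_left h2 6
  have h4 : u ^ 12 * 2 ≤ u' ^ 12 := by
    have e1 : (9 * u ^ 2) ^ 6 = 531441 * u ^ 12 := by ring
    have e2 : (8 * u' ^ 2) ^ 6 = 262144 * u' ^ 12 := by ring
    rw [e1, e2] at h3
    have : 0 ≤ u ^ 12 := Nat.zero_le _
    omega
  simp only [Int.toNat_natCast]
  have h5 : Nat.log 2 (u ^ 12 * 2) = Nat.log 2 (u ^ 12) + 1 :=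
    Nat.log_mul_base (by norm_num) (by positivity)
  have h6 := Nat.log_mono_right (b := 2) h4
  omega

/-- the solutions of `U² - D V² = 4` in the box of size `W` -/
noncomputable def units (D : ℤ) (W : ℕ) : Finset (ℤ × ℤ) :=
  (Icc (-(W : ℤ)) W ×ˢ Icc (-(W : ℤ)) W).filter (fun p => p.1 ^ 2 - D * p.2 ^ 2 = 4)

noncomputable def unitsPos (D : ℤ) (W : ℕ) : Finset (ℤ × ℤ) :=
  (units D W).filter (fun p => 0 < p.1 ∧ 0 ≤ p.2)

theorem card_unitsPos {D : ℤ} (hD : 2 ≤ D) (W : ℕ) :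
    (unitsPos D W).card ≤ Nat.log 2 (W ^ 12) + 1 := by
  have hinj : Set.InjOn (fun p : ℤ × ℤ => Nat.log 2 (p.1.toNat ^ 12)) (unitsPos D W) := by
    intro p hp q hq hpq
    simp only [unitsPos, units, coe_filter, mem_filter, mem_product, mem_Icc,
      Set.mem_ofPred_eq] at hp hq
    obtain ⟨⟨_, hp1⟩, hp2, hp3⟩ := hp
    obtain ⟨⟨_, hq1⟩, hq2, hq3⟩ := hq
    rcases lt_trichotomy p.2 q.2 with hlt | heq | hgt
    · exact absurd hpq (gap12 hD hp1 hq1 hp2 hq2 hp3 hlt).ne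
    · have : p.1 ^ 2 = q.1 ^ 2 := by
        rw [heq] at hp1
        linarith
      have h1 : p.1 = q.1 := by
        nlinarith [sq_nonneg (p.1 - q.1), sq_nonneg (p.1 + q.1), mul_self_eq_mul_self_iff.1 (show p.1 * p.1 = q.1 * q.1 by nlinarith)]
      exact Prod.ext h1 heq
    · exact absurd hpq (gap12 hD hq1 hp1 hq2 hp2 hq3 hgt).ne'
  have himg : (unitsPos D W).image (fun p : ℤ × ℤ => Nat.log 2 (p.1.toNat ^ 12)) ⊆
      range (Nat.log 2 (W ^ 12) + 1) := by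
    intro n hn
    simp only [mem_image] at hn
    obtain ⟨p, hp, rfl⟩ := hn
    simp only [unitsPos, units, mem_filter, mem_product, mem_Icc] at hp
    have h1 : p.1.toNat ≤ W := by omega
    rw [mem_range]
    exact Nat.lt_succ_of_le (Nat.log_mono_right (Nat.pow_le_pow_left h1 12))
  calc (unitsPos D W).card
      = ((unitsPos D W).image (fun p : ℤ × ℤ => Nat.log 2 (p.1.toNat ^ 12))).card :=
        (card_image_of_injOn hinj).symm
    _ ≤ (range (Nat.log 2 (W ^ 12) + 1)).card := card_le_card himg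
    _ = _ := card_range _

theorem card_units_pos {D : ℤ} (hD : 2 ≤ D) (W : ℕ) :
    (units D W).card ≤ 4 * (Nat.log 2 (W ^ 12) + 1) := by
  have hsub : units D W ⊆ ((unitsPos D W) ×ˢ (({1, -1} : Finset ℤ) ×ˢ ({1, -1} : Finset ℤ))).image
      (fun x : (ℤ × ℤ) × (ℤ × ℤ) => (x.2.1 * x.1.1, x.2.2 * x.1.2)) := by
    intro p hp
    have hp' := hp
    simp only [units, mem_filter, mem_product, mem_Icc] at hp
    obtain ⟨⟨⟨h1, h2⟩, h3, h4⟩, h5⟩ := hp
    have hne : p.1 ≠ 0 := by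
      intro h0
      rw [h0] at h5
      have : 0 ≤ D * p.2 ^ 2 := by positivity
      linarith
    simp only [mem_image, mem_product, Prod.exists]
    obtain ⟨s, hs, hs1, hs2⟩ : ∃ s : ℤ, s ∈ ({1, -1} : Finset ℤ) ∧ 0 < s * p.1 ∧ s * s = 1 := by
      rcases lt_or_gt_of_ne hne with h | h
      · exact ⟨-1, by simp, by linarith, by norm_num⟩
      · exact ⟨1, by simp, by linarith, by norm_num⟩
    obtain ⟨t, ht, ht1, ht2⟩ : ∃ t : ℤ, t ∈ ({1, -1} : Finset ℤ) ∧ 0 ≤ t * p.2 ∧ t * t = 1 := by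
      rcases le_total 0 p.2 with h | h
      · exact ⟨1, by simp, by linarith, by norm_num⟩
      · exact ⟨-1, by simp, by linarith, by norm_num⟩
    refine ⟨s * p.1, t * p.2, s, t, ⟨?_, hs, ht⟩, ?_⟩
    · simp only [unitsPos, units, mem_filter, mem_product, mem_Icc]
      refine ⟨⟨⟨?_, ?_⟩, ?_⟩, hs1, ht1⟩
      · simp only [mem_insert, mem_singleton] at hs
        rcases hs with rfl | rfl <;> constructor <;> linarith
      · simp only [mem_insert, mem_singleton] at ht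
        rcases ht with rfl | rfl <;> constructor <;> linarith
      · linear_combination h5 + p.1 ^ 2 * hs2 - D * p.2 ^ 2 * ht2
    · ext
      · show s * (s * p.1) = p.1
        rw [← mul_assoc, hs2, one_mul]
      · show t * (t * p.2) = p.2
        rw [← mul_assoc, ht2, one_mul]
  calc (units D W).card ≤ _ := card_le_card hsub
    _ ≤ ((unitsPos D W) ×ˢ (({1, -1} : Finset ℤ) ×ˢ ({1, -1} : Finset ℤ))).card := card_image_le
    _ = (unitsPos D W).card * 4 := by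
        rw [card_product, card_product]
        norm_num
    _ ≤ _ := by
        have := card_unitsPos hD W
        omega

theorem card_units_neg {D : ℤ} (hD : D < 0) (W : ℕ) : (units D W).card ≤ 25 := by
  have hsub : units D W ⊆ (Icc (-2 : ℤ) 2 ×ˢ Icc (-2 : ℤ) 2) := by
    intro p hp
    simp only [units, mem_filter, mem_product, mem_Icc] at hp
    obtain ⟨_, h5⟩ := hp
    simp only [mem_product, mem_Icc]
    have h1 : p.1 ^ 2 ≤ 4 := by nlinarith [sq_nonneg p.2]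
    have h2 : p.2 ^ 2 ≤ 4 := by nlinarith [sq_nonneg p.1, sq_nonneg p.2]
    refine ⟨⟨?_, ?_⟩, ?_, ?_⟩ <;> nlinarith
  calc (units D W).card ≤ _ := card_le_card hsub
    _ = 25 := by decide

theorem card_units {D : ℤ} (hsq : Squarefree D) (h1 : D ≠ 1) (W : ℕ) :
    (units D W).card ≤ 25 + 4 * (Nat.log 2 (W ^ 12) + 1) := by
  have h0 : D ≠ 0 := hsq.ne_zero
  rcases lt_or_gt_of_ne h0 with h | h
  · have := card_units_neg h W
    omega
  · have := card_units_pos (show 2 ≤ D by omega) W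
    omega

/-! ## the class lemma -/

theorem dvd_two_of_sq {D g : ℤ} (hsq : Squarefree D) (h : g ^ 2 ∣ 4 * D) : g ∣ 2 := by
  rcases Int.even_or_odd g with ⟨h', hh⟩ | hodd
  · have e : g = 2 * h' := by rw [hh]; ring
    subst e
    have h1 : h' * h' ∣ D := by
      have : 4 * (h' * h') ∣ 4 * D := by
        have e2 : (2 * h') ^ 2 = 4 * (h' * h') := by ring
        rwa [e2] at h
      exact (mul_dvd_mul_iff_left (by norm_num : (4 : ℤ) ≠ 0)).1 this
    have h2 : IsUnit h' := hsq h' h1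
    obtain ⟨u, rfl⟩ := h2
    exact ⟨((u⁻¹ : ℤˣ) : ℤ), by rw [mul_assoc, ← Units.val_mul, mul_inv_cancel]; simp⟩
  · have hc : IsCoprime (g ^ 2) 4 := by
      have h1 : IsCoprime g 2 := (Int.isCoprime_iff_gcd_eq_one).2 (by
        rcases hodd with ⟨m, rfl⟩
        have : IsCoprime (2 * m + 1) (2 : ℤ) := ⟨1, -m, by ring⟩
        exact Int.isCoprime_iff_gcd_eq_one.1 this)
      have h2 : IsCoprime g (2 ^ 2) := h1.pow_right
      have h3 : IsCoprime (g ^ 2) (2 ^ 2) := h2.pow_left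
      simpa using h3
    have h1 : g ^ 2 ∣ D := hc.dvd_of_dvd_mul_left h
    have h2 : IsUnit g := hsq g (by rwa [← sq])
    exact h2.dvd

/-- solutions with the same `gcd(k, X Z₀ - X₀ Z)` are congruent -/
theorem class_dvd {D k X₀ Z₀ X Z X' Z' : ℤ} (hsq : Squarefree D)
    (h0 : X₀ ^ 2 - D * Z₀ ^ 2 = k) (h : X ^ 2 - D * Z ^ 2 = k) (h' : X' ^ 2 - D * Z' ^ 2 = k)
    (hk : k ≠ 0)
    (c0 : IsCoprime Z₀ k) (c : IsCoprime Z k)
    (hg : Int.gcd k (X * Z₀ - X₀ * Z) = Int.gcd k (X' * Z₀ - X₀ * Z')) :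
    k ∣ 2 * (X' * Z - X * Z') := by
  -- d and m
  have key : ∀ x z : ℤ, x ^ 2 - D * z ^ 2 = k →
      ∃ m : ℤ, k = (Int.gcd k (x * Z₀ - X₀ * z) : ℤ) * m ∧ m ∣ x * Z₀ + X₀ * z := by
    intro x z hx
    set d : ℤ := (Int.gcd k (x * Z₀ - X₀ * z) : ℤ) with hd
    have hdk : d ∣ k := Int.gcd_dvd_left _ _
    have hdw : d ∣ x * Z₀ - X₀ * z := Int.gcd_dvd_right _ _
    have hd0 : d ≠ 0 := by
      intro h0
      rw [h0] at hdk
      exact hk (zero_dvd_iff.1 hdk)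
    obtain ⟨m, hm⟩ := hdk
    obtain ⟨s, hs⟩ := hdw
    refine ⟨m, hm, ?_⟩
    have hcop : IsCoprime m s := by
      have h1 : d = Int.gcd k (x * Z₀ - X₀ * z) := hd
      have h2 := Int.gcd_eq_gcd_ab k (x * Z₀ - X₀ * z)
      rw [← h1] at h2
      refine ⟨Int.gcdA k (x * Z₀ - X₀ * z), Int.gcdB k (x * Z₀ - X₀ * z), ?_⟩
      have h3 : d * (Int.gcdA k (x * Z₀ - X₀ * z) * m + Int.gcdB k (x * Z₀ - X₀ * z) * s) =
          d * 1 := by
        have e1 : k * Int.gcdA k (x * Z₀ - X₀ * z) = d * (m * Int.gcdA k (x * Z₀ - X₀ * z)) := by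
          rw [← mul_assoc, ← hm]
        have e2 : (x * Z₀ - X₀ * z) * Int.gcdB k (x * Z₀ - X₀ * z) =
            d * (s * Int.gcdB k (x * Z₀ - X₀ * z)) := by
          rw [← mul_assoc, ← hs]
        linear_combination (-1 : ℤ) * h2 - e1 - e2
      exact mul_left_cancel₀ hd0 h3
    have h4 : k ∣ (x * Z₀ - X₀ * z) * (x * Z₀ + X₀ * z) :=
      ⟨Z₀ ^ 2 - z ^ 2, by linear_combination Z₀ ^ 2 * hx - z ^ 2 * h0⟩
    have h5 : d * m ∣ d * (s * (x * Z₀ + X₀ * z)) := by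
      have : d * (s * (x * Z₀ + X₀ * z)) = (x * Z₀ - X₀ * z) * (x * Z₀ + X₀ * z) := by
        rw [hs]; ring
      rw [this, ← hm]
      exact h4
    have h6 : m ∣ s * (x * Z₀ + X₀ * z) := (mul_dvd_mul_iff_left hd0).1 h5
    exact hcop.dvd_of_dvd_mul_left h6
  obtain ⟨m, hm, hmP⟩ := key X Z h
  obtain ⟨m', hm', hmP'⟩ := key X' Z' h'
  rw [← hg] at hm'
  set d : ℤ := (Int.gcd k (X * Z₀ - X₀ * Z) : ℤ) with hd
  have hd0 : d ≠ 0 := by
    intro h0
    rw [h0, zero_mul] at hm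
    exact hk hm
  have hmm : m' = m := mul_left_cancel₀ hd0 (by rw [← hm', ← hm])
  rw [hmm] at hmP'
  have hdP : d ∣ X * Z₀ - X₀ * Z := Int.gcd_dvd_right _ _
  have hdP' : d ∣ X' * Z₀ - X₀ * Z' := by
    rw [hd, hg]
    exact Int.gcd_dvd_right _ _
  have hdk : d ∣ k := ⟨m, hm⟩
  have hmk : m ∣ k := ⟨d, by rw [hm]; ring⟩
  -- divisibility of W
  have hW1 : d ∣ X' * Z - X * Z' := by
    have h1 : d ∣ Z₀ * (X' * Z - X * Z') := by
      have e : Z₀ * (X' * Z - X * Z') = Z * (X' * Z₀ - X₀ * Z') - Z' * (X * Z₀ - X₀ * Z) := by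
        ring
      rw [e]
      exact dvd_sub (hdP'.mul_left _) (hdP.mul_left _)
    exact (c0.symm.of_isCoprime_of_dvd_left hdk).dvd_of_dvd_mul_left h1
  have hW2 : m ∣ X' * Z - X * Z' := by
    have h1 : m ∣ Z₀ * (X' * Z - X * Z') := by
      have e : Z₀ * (X' * Z - X * Z') = Z * (X' * Z₀ + X₀ * Z') - Z' * (X * Z₀ + X₀ * Z) := by
        ring
      rw [e]
      exact dvd_sub (hmP'.mul_left _) (hmP.mul_left _)
    exact (c0.symm.of_isCoprime_of_dvd_left hmk).dvd_of_dvd_mul_left h1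
  -- the gcd of d and m divides 2
  set g : ℤ := (Int.gcd d m : ℤ) with hgdef
  have hgd : g ∣ d := Int.gcd_dvd_left _ _
  have hgm : g ∣ m := Int.gcd_dvd_right _ _
  have hgk : g ∣ k := hgd.trans hdk
  have hg2 : g ∣ 2 := by
    apply dvd_two_of_sq hsq
    have h1 : g ∣ Z * (2 * X₀) := by
      have e : Z * (2 * X₀) = (X * Z₀ + X₀ * Z) - (X * Z₀ - X₀ * Z) := by ring
      rw [e]
      exact dvd_sub (hgm.trans hmP) (hgd.trans hdP)
    have h2 : g ∣ 2 * X₀ := (c.symm.of_isCoprime_of_dvd_left hgk).dvd_of_dvd_mul_left h1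
    have h3 : g ^ 2 ∣ k := by
      rw [hm, sq]
      exact mul_dvd_mul hgd hgm
    have h4 : g ^ 2 ∣ (2 * X₀) ^ 2 := pow_dvd_pow_of_dvd h2 2
    have h5 : g ^ 2 ∣ Z₀ ^ 2 * (4 * D) := by
      have e : Z₀ ^ 2 * (4 * D) = (2 * X₀) ^ 2 - 4 * k := by
        rw [← h0]; ring
      rw [e]
      exact dvd_sub h4 (h3.mul_left _)
    have hcop : IsCoprime (g ^ 2) (Z₀ ^ 2) :=
      ((c0.symm.of_isCoprime_of_dvd_left hgk).pow_left).pow_right
    exact hcop.dvd_of_dvd_mul_left h5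
  -- conclusion
  obtain ⟨w1, hw1⟩ := hW1
  obtain ⟨w2, hw2⟩ := hW2
  have hbez := Int.gcd_eq_gcd_ab d m
  rw [← hgdef] at hbez
  have h7 : k ∣ g * (X' * Z - X * Z') := by
    rw [hbez, add_mul]
    apply dvd_add
    · refine ⟨Int.gcdA d m * w2, ?_⟩
      rw [hw2]
      linear_combination (-(Int.gcdA d m * w2)) * hm
    · refine ⟨Int.gcdB d m * w1, ?_⟩
      rw [hw1]
      linear_combination (-(Int.gcdB d m * w1)) * hm
  obtain ⟨r, hr⟩ := hg2
  have e : 2 * (X' * Z - X * Z') = r * (g * (X' * Z - X * Z')) := by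
    rw [hr]; ring
  rw [e]
  exact h7.mul_left _

/-! ## primitive solutions -/

/-- the solutions in the box -/
noncomputable def sol (D k : ℤ) (B : ℕ) : Finset (ℤ × ℤ) :=
  (Icc (-(B : ℤ)) B ×ˢ Icc (-(B : ℤ)) B).filter (fun p => p.1 ^ 2 - D * p.2 ^ 2 = k)

theorem mem_sol {D k : ℤ} {B : ℕ} {p : ℤ × ℤ} :
    p ∈ sol D k B ↔ |p.1| ≤ B ∧ |p.2| ≤ B ∧ p.1 ^ 2 - D * p.2 ^ 2 = k := by
  simp only [sol, mem_filter, mem_product, mem_Icc, abs_le]
  tauto

noncomputable def prim (D k : ℤ) (B : ℕ) : Finset (ℤ × ℤ) :=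
  (sol D k B).filter (fun p => Int.gcd p.1 p.2 = 1)

theorem coprime_of_prim {D k X Z : ℤ} (h : X ^ 2 - D * Z ^ 2 = k) (hg : Int.gcd X Z = 1) :
    IsCoprime Z k := by
  have h1 : IsCoprime X Z := Int.isCoprime_iff_gcd_eq_one.2 hg
  have h2 : IsCoprime Z (X ^ 2) := h1.symm.pow_right
  have e : k = X ^ 2 + Z * (-(D * Z)) := by rw [← h]; ring
  rw [e]
  exact IsCoprime.add_mul_left_right h2 _

theorem mem_units {D : ℤ} {W : ℕ} {p : ℤ × ℤ} :
    p ∈ units D W ↔ |p.1| ≤ W ∧ |p.2| ≤ W ∧ p.1 ^ 2 - D * p.2 ^ 2 = 4 := by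
  simp only [units, mem_filter, mem_product, mem_Icc, abs_le]
  tauto

theorem norm_mul_aux {D k a b c d : ℤ} (h : a ^ 2 - D * b ^ 2 = k) (h' : c ^ 2 - D * d ^ 2 = k) :
    (2 * (a * c - D * b * d)) ^ 2 - D * (2 * (c * b - a * d)) ^ 2 = k ^ 2 * 4 := by
  linear_combination (4 * (c ^ 2 - D * d ^ 2)) * h + 4 * k * h'

theorem card_fiber {D k : ℤ} (hsq : Squarefree D) (hk : k ≠ 0) (B : ℕ) {P₀ : ℤ × ℤ}
    (hP₀ : P₀ ∈ prim D k B) (n : ℕ) :
    ((prim D k B).filter (fun P => Int.gcd k (P.1 * P₀.2 - P₀.1 * P.2) = n)).card ≤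
      (units D (4 * D.natAbs * B ^ 2)).card := by
  classical
  rcases ((prim D k B).filter
    (fun P => Int.gcd k (P.1 * P₀.2 - P₀.1 * P.2) = n)).eq_empty_or_nonempty with he | ⟨P', hP'⟩
  · rw [he]; simp
  simp only [prim, mem_filter, mem_sol] at hP₀ hP'
  obtain ⟨⟨hX', hZ', hs'⟩, hg'⟩ := hP'.1
  have hn' := hP'.2
  obtain ⟨⟨_, _, hs0⟩, hg0⟩ := hP₀
  have hc0 := coprime_of_prim hs0 hg0
  have hDA : (1 : ℤ) ≤ |D| := Int.one_le_abs hsq.ne_zero
  have hkA : (1 : ℤ) ≤ |k| := Int.one_le_abs hk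
  -- divisibility
  have hdiv : ∀ P ∈ (prim D k B).filter (fun P => Int.gcd k (P.1 * P₀.2 - P₀.1 * P.2) = n),
      k ∣ 2 * (P.1 * P'.1 - D * P.2 * P'.2) ∧ k ∣ 2 * (P'.1 * P.2 - P.1 * P'.2) := by
    intro P hP
    simp only [prim, mem_filter, mem_sol] at hP
    obtain ⟨⟨⟨_, _, hs⟩, hg⟩, hn⟩ := hP
    have hc := coprime_of_prim hs hg
    have h1 := class_dvd hsq hs0 hs hs' hk hc0 hc (hn.trans hn'.symm)
    refine ⟨?_, h1⟩
    have h2 : k ∣ P.2 * (2 * (P.1 * P'.1 - D * P.2 * P'.2)) := by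
      have e : P.2 * (2 * (P.1 * P'.1 - D * P.2 * P'.2)) =
          P.1 * (2 * (P'.1 * P.2 - P.1 * P'.2)) + k * (2 * P'.2) := by
        linear_combination (2 * P'.2) * hs
      rw [e]
      exact dvd_add (h1.mul_left _) (dvd_mul_right _ _)
    exact hc.symm.dvd_of_dvd_mul_left h2
  refine card_le_card_of_injOn
    (fun P => (2 * (P.1 * P'.1 - D * P.2 * P'.2) / k, 2 * (P'.1 * P.2 - P.1 * P'.2) / k)) ?_ ?_
  · intro P hP
    have hP1 := hdiv P hP
    rw [mem_coe] at hP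
    simp only [prim, mem_filter, mem_sol] at hP
    obtain ⟨⟨⟨hX, hZ, hs⟩, hg⟩, hn⟩ := hP
    obtain ⟨⟨U, hU⟩, ⟨V, hV⟩⟩ := hP1
    rw [mem_coe, mem_units]
    simp only
    rw [hU, hV, Int.mul_ediv_cancel_left _ hk, Int.mul_ediv_cancel_left _ hk]
    have hB2 : |P.1 * P'.1| ≤ (B : ℤ) ^ 2 := by
      rw [abs_mul, sq]
      exact mul_le_mul hX hX' (abs_nonneg _) (by positivity)
    have hB3 : |P.2 * P'.2| ≤ (B : ℤ) ^ 2 := by
      rw [abs_mul, sq]
      exact mul_le_mul hZ hZ' (abs_nonneg _) (by positivity)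
    have hB4 : |P'.1 * P.2| ≤ (B : ℤ) ^ 2 := by
      rw [abs_mul, sq]
      exact mul_le_mul hX' hZ (abs_nonneg _) (by positivity)
    have hB5 : |P.1 * P'.2| ≤ (B : ℤ) ^ 2 := by
      rw [abs_mul, sq]
      exact mul_le_mul hX hZ' (abs_nonneg _) (by positivity)
    have hBB : (0 : ℤ) ≤ (B : ℤ) ^ 2 := by positivity
    have hcast : ((4 * D.natAbs * B ^ 2 : ℕ) : ℤ) = 4 * |D| * (B : ℤ) ^ 2 := by
      push_cast
      rfl
    rw [hcast]
    refine ⟨?_, ?_, ?_⟩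
    · have h1 : |k| * |U| ≤ 4 * |D| * (B : ℤ) ^ 2 := by
        rw [← abs_mul, ← hU, abs_mul]
        have h2 : |P.1 * P'.1 - D * P.2 * P'.2| ≤ |P.1 * P'.1| + |D| * |P.2 * P'.2| := by
          have := abs_sub (P.1 * P'.1) (D * P.2 * P'.2)
          rw [show |D * P.2 * P'.2| = |D| * |P.2 * P'.2| by rw [mul_assoc, abs_mul]] at this
          exact this
        have h3 : |D| * |P.2 * P'.2| ≤ |D| * (B : ℤ) ^ 2 :=
          mul_le_mul_of_nonneg_left hB3 (abs_nonneg _)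
        have h4 : (B : ℤ) ^ 2 ≤ |D| * (B : ℤ) ^ 2 := le_mul_of_one_le_left hBB hDA
        rw [show |(2 : ℤ)| = 2 by norm_num]
        linarith
      exact (le_mul_of_one_le_left (abs_nonneg _) hkA).trans h1
    · have h1 : |k| * |V| ≤ 4 * |D| * (B : ℤ) ^ 2 := by
        rw [← abs_mul, ← hV, abs_mul]
        have h2 := abs_sub (P'.1 * P.2) (P.1 * P'.2)
        have h4 : (B : ℤ) ^ 2 ≤ |D| * (B : ℤ) ^ 2 := le_mul_of_one_le_left hBB hDA
        rw [show |(2 : ℤ)| = 2 by norm_num]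
        linarith
      exact (le_mul_of_one_le_left (abs_nonneg _) hkA).trans h1
    · have h1 : k ^ 2 * (U ^ 2 - D * V ^ 2) = k ^ 2 * 4 := by
        have e1 : k ^ 2 * (U ^ 2 - D * V ^ 2) = (k * U) ^ 2 - D * (k * V) ^ 2 := by ring
        rw [e1, ← hU, ← hV]
        exact norm_mul_aux hs hs'
      exact mul_left_cancel₀ (pow_ne_zero 2 hk) h1
  · intro P hP Q hQ hPQ
    have hP1 := hdiv P hP
    have hQ1 := hdiv Q hQ
    simp only [Prod.mk.injEq] at hPQ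
    obtain ⟨h1, h2⟩ := hPQ
    have h3 := (Int.ediv_left_inj hP1.1 hQ1.1).1 h1
    have h4 := (Int.ediv_left_inj hP1.2 hQ1.2).1 h2
    have h5 : k * (P.1 - Q.1) = k * 0 := by
      have : 2 * (k * (P.1 - Q.1)) = 2 * 0 := by
        linear_combination P'.1 * h3 + D * P'.2 * h4 - 2 * (P.1 - Q.1) * hs'
      have := mul_left_cancel₀ (by norm_num : (2 : ℤ) ≠ 0) this
      rw [this, mul_zero]
    have h6 : k * (P.2 - Q.2) = k * 0 := by
      have : 2 * (k * (P.2 - Q.2)) = 2 * 0 := by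
        linear_combination P'.2 * h3 + P'.1 * h4 - 2 * (P.2 - Q.2) * hs'
      have := mul_left_cancel₀ (by norm_num : (2 : ℤ) ≠ 0) this
      rw [this, mul_zero]
    have h7 := mul_left_cancel₀ hk h5
    have h8 := mul_left_cancel₀ hk h6
    exact Prod.ext (by linarith) (by linarith)

theorem card_prim {D k : ℤ} (hsq : Squarefree D) (hk : k ≠ 0) (B : ℕ) :
    (prim D k B).card ≤
      (units D (4 * D.natAbs * B ^ 2)).card * k.natAbs.divisors.card := by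
  classical
  rcases (prim D k B).eq_empty_or_nonempty with he | ⟨P₀, hP₀⟩
  · rw [he]; simp
  have h1 := Finset.card_le_mul_card_image (s := prim D k B)
    (f := fun P => Int.gcd k (P.1 * P₀.2 - P₀.1 * P.2)) (n := (units D (4 * D.natAbs * B ^ 2)).card)
    (fun n _ => card_fiber hsq hk B hP₀ n)
  refine h1.trans (Nat.mul_le_mul_left _ (card_le_card ?_))
  intro n hn
  simp only [mem_image] at hn
  obtain ⟨P, _, rfl⟩ := hn
  rw [Nat.mem_divisors]
  refine ⟨?_, Int.natAbs_ne_zero.2 hk⟩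
  exact Int.gcd_dvd_natAbs_left _ _

/-! ## all solutions -/

theorem card_sol {D k : ℤ} (hsq : Squarefree D) (hk : k ≠ 0) (B : ℕ) :
    (sol D k B).card ≤
      (units D (4 * D.natAbs * B ^ 2)).card * k.natAbs.divisors.card * k.natAbs.divisors.card := by
  classical
  have h1 := Finset.card_le_mul_card_image (s := sol D k B)
    (f := fun P => Int.gcd P.1 P.2)
    (n := (units D (4 * D.natAbs * B ^ 2)).card * k.natAbs.divisors.card) ?_
  · refine h1.trans (Nat.mul_le_mul_left _ (card_le_card ?_))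
    intro n hn
    simp only [mem_image] at hn
    obtain ⟨P, hP, rfl⟩ := hn
    rw [mem_sol] at hP
    rw [Nat.mem_divisors]
    refine ⟨?_, Int.natAbs_ne_zero.2 hk⟩
    rw [← Int.natCast_dvd, ← hP.2.2]
    exact dvd_sub (dvd_pow (Int.gcd_dvd_left _ _) (by norm_num))
      ((dvd_pow (Int.gcd_dvd_right _ _) (by norm_num)).mul_left _)
  · intro t ht
    simp only [mem_image] at ht
    obtain ⟨P₁, hP₁, rfl⟩ := ht
    set t : ℕ := Int.gcd P₁.1 P₁.2 with ht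
    rw [mem_sol] at hP₁
    have ht0 : (t : ℤ) ≠ 0 := by
      intro h0
      have h0' : t = 0 := by exact_mod_cast h0
      rw [ht, Int.gcd_eq_zero_iff] at h0'
      obtain ⟨_, _, h3⟩ := hP₁
      rw [h0'.1, h0'.2] at h3
      apply hk
      rw [← h3]; ring
    have htk : (t : ℤ) ^ 2 ∣ k := by
      rw [← hP₁.2.2]
      exact dvd_sub (pow_dvd_pow_of_dvd (Int.gcd_dvd_left _ _) 2)
        ((pow_dvd_pow_of_dvd (Int.gcd_dvd_right _ _) 2).mul_left _)
    obtain ⟨k', hk'⟩ := htk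
    have hk'0 : k' ≠ 0 := by
      rintro rfl
      exact hk (by rw [hk', mul_zero])
    have h2 : ((sol D k B).filter (fun P => Int.gcd P.1 P.2 = t)).card ≤ (prim D k' B).card := by
      have hdv : ∀ P ∈ (sol D k B).filter (fun P => Int.gcd P.1 P.2 = t),
          (t : ℤ) ∣ P.1 ∧ (t : ℤ) ∣ P.2 := by
        intro P hP
        rw [mem_filter] at hP
        rw [← hP.2]
        exact ⟨Int.gcd_dvd_left _ _, Int.gcd_dvd_right _ _⟩
      refine card_le_card_of_injOn (fun P => (P.1 / t, P.2 / t)) ?_ ?_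
      · intro P hP
        obtain ⟨⟨a, ha⟩, ⟨b, hb⟩⟩ := hdv P hP
        rw [mem_coe, mem_filter, mem_sol] at hP
        obtain ⟨⟨h1, h2, h3⟩, h4⟩ := hP
        rw [mem_coe, prim, mem_filter, mem_sol]
        simp only
        rw [ha, hb, Int.mul_ediv_cancel_left _ ht0, Int.mul_ediv_cancel_left _ ht0]
        have htA : (1 : ℤ) ≤ |(t : ℤ)| := Int.one_le_abs ht0
        rw [ha, abs_mul] at h1
        rw [hb, abs_mul] at h2
        refine ⟨⟨?_, ?_, ?_⟩, ?_⟩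
        · nlinarith [abs_nonneg a]
        · nlinarith [abs_nonneg b]
        · have e : (t : ℤ) ^ 2 * (a ^ 2 - D * b ^ 2) = (t : ℤ) ^ 2 * k' := by
            rw [← hk', ← h3, ha, hb]; ring
          exact mul_left_cancel₀ (pow_ne_zero 2 ht0) e
        · rw [ha, hb, Int.gcd_mul_left] at h4
          have h5 : t * Int.gcd a b = t * 1 := by simpa using h4
          exact Nat.eq_of_mul_eq_mul_left (Nat.pos_of_ne_zero (by exact_mod_cast ht0)) h5
      · intro P hP Q hQ hPQ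
        have hP1 := hdv P hP
        have hQ1 := hdv Q hQ
        simp only [Prod.mk.injEq] at hPQ
        exact Prod.ext ((Int.ediv_left_inj hP1.1 hQ1.1).1 hPQ.1)
          ((Int.ediv_left_inj hP1.2 hQ1.2).1 hPQ.2)
    refine h2.trans ((card_prim hsq hk'0 B).trans (Nat.mul_le_mul_left _ (card_le_card ?_)))
    apply Nat.divisors_subset_of_dvd (Int.natAbs_ne_zero.2 hk)
    exact Int.natAbs_dvd_natAbs.2 ⟨(t : ℤ) ^ 2, by rw [hk']; ring⟩

theorem log_bound (η : ℝ) (hη : 0 < η) : ∃ C : ℝ, 0 < C ∧ ∀ M B : ℕ, 1 ≤ M → 1 ≤ B →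
    ((25 + 4 * (Nat.log 2 ((4 * M * B ^ 2) ^ 12) + 1) : ℕ) : ℝ) ≤ C * ((B : ℝ) * M) ^ η := by
  have hl2 : 0 < Real.log 2 := Real.log_pos (by norm_num)
  refine ⟨29 + 4 * (24 / η / Real.log 2 * 2 ^ η), by positivity, ?_⟩
  intro M B hM hB
  have hM' : (1 : ℝ) ≤ M := by exact_mod_cast hM
  have hB' : (1 : ℝ) ≤ B := by exact_mod_cast hB
  have hBM : (1 : ℝ) ≤ (B : ℝ) * M := one_le_mul_of_one_le_of_one_le hB' hM'
  have h1 : (1 : ℝ) ≤ ((B : ℝ) * M) ^ η := Real.one_le_rpow hBM hη.le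
  set n : ℕ := (4 * M * B ^ 2) ^ 12 with hn
  have hn1 : (1 : ℝ) ≤ (n : ℝ) := by
    have : 1 ≤ n := Nat.one_le_iff_ne_zero.2 (by positivity)
    exact_mod_cast this
  have h2 : (Nat.log 2 n : ℝ) ≤ Real.log n / Real.log 2 := by
    have := Real.natLog_le_logb n 2
    rwa [Real.logb, Nat.cast_ofNat] at this
  have h3 : Real.log n ≤ (n : ℝ) ^ (η / 24) / (η / 24) :=
    Real.log_le_rpow_div (by positivity) (by positivity)
  have h4 : (n : ℝ) ^ (η / 24) ≤ 2 ^ η * ((B : ℝ) * M) ^ η := by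
    have e1 : (n : ℝ) ≤ (2 * ((B : ℝ) * M)) ^ (24 : ℝ) := by
      rw [show (24 : ℝ) = ((24 : ℕ) : ℝ) by norm_num, Real.rpow_natCast, hn]
      push_cast
      have e2 : (4 * (M : ℝ) * (B : ℝ) ^ 2) ≤ (2 * ((B : ℝ) * M)) ^ 2 := by
        have : (M : ℝ) ≤ (M : ℝ) ^ 2 := by nlinarith
        have h5 : (M : ℝ) * (B : ℝ) ^ 2 ≤ (M : ℝ) ^ 2 * (B : ℝ) ^ 2 :=
          mul_le_mul_of_nonneg_right this (by positivity)
        nlinarith
      calc (4 * (M : ℝ) * (B : ℝ) ^ 2) ^ 12 ≤ ((2 * ((B : ℝ) * M)) ^ 2) ^ 12 :=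
            pow_le_pow_left₀ (by positivity) e2 12
        _ = (2 * ((B : ℝ) * M)) ^ 24 := by ring
    calc (n : ℝ) ^ (η / 24) ≤ ((2 * ((B : ℝ) * M)) ^ (24 : ℝ)) ^ (η / 24) :=
          Real.rpow_le_rpow (by positivity) e1 (by positivity)
      _ = (2 * ((B : ℝ) * M)) ^ η := by
          rw [← Real.rpow_mul (by positivity)]
          congr 1
          ring
      _ = 2 ^ η * ((B : ℝ) * M) ^ η := Real.mul_rpow (by norm_num) (by positivity)
  have h5 : (Nat.log 2 n : ℝ) ≤ 24 / η / Real.log 2 * 2 ^ η * ((B : ℝ) * M) ^ η := by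
    calc (Nat.log 2 n : ℝ) ≤ Real.log n / Real.log 2 := h2
      _ ≤ (n : ℝ) ^ (η / 24) / (η / 24) / Real.log 2 := by gcongr
      _ ≤ (2 ^ η * ((B : ℝ) * M) ^ η) / (η / 24) / Real.log 2 := by gcongr
      _ = _ := by field_simp
  push_cast
  nlinarith

/-- **Uniform bound for the number of points on `x² - D y² = k` in a box.** -/
theorem norm_eq_count (η : ℝ) (hη : 0 < η) : ∃ C : ℝ, 0 < C ∧ ∀ (D k : ℤ) (B : ℕ),
    Squarefree D → D ≠ 1 → k ≠ 0 → 1 ≤ B →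
    (Nat.card {p : ℤ × ℤ // p.1 ^ 2 - D * p.2 ^ 2 = k ∧ |p.1| ≤ B ∧ |p.2| ≤ B} : ℝ) ≤
      C * ((B : ℝ) * |(k : ℝ)| * |(D : ℝ)|) ^ η := by
  obtain ⟨C₁, hC₁, h₁⟩ := log_bound η hη
  obtain ⟨C₂, hC₂, h₂⟩ := Pool.Agent.H510R2.divisor_bound (η / 2) (by positivity)
  refine ⟨C₁ * (C₂ * C₂), by positivity, ?_⟩
  intro D k B hsq hD hk hB
  have hcard : Nat.card {p : ℤ × ℤ // p.1 ^ 2 - D * p.2 ^ 2 = k ∧ |p.1| ≤ B ∧ |p.2| ≤ B} =
      (sol D k B).card := by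
    apply Nat.subtype_card
    intro p
    rw [mem_sol]
    tauto
  rw [hcard]
  have hDA : 1 ≤ D.natAbs := Int.natAbs_pos.2 hsq.ne_zero
  have hkA : 1 ≤ k.natAbs := Int.natAbs_pos.2 hk
  have h3 := card_sol hsq hk B
  have h4 := card_units hsq hD (4 * D.natAbs * B ^ 2)
  have h5 := h₁ D.natAbs B hDA hB
  have h6 := h₂ k.natAbs hkA
  have eD : ((D.natAbs : ℕ) : ℝ) = |(D : ℝ)| := by
    rw [Nat.cast_natAbs, Int.cast_abs]
  have ek : ((k.natAbs : ℕ) : ℝ) = |(k : ℝ)| := by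
    rw [Nat.cast_natAbs, Int.cast_abs]
  rw [eD] at h5
  rw [ek] at h6
  have h7 : (((units D (4 * D.natAbs * B ^ 2)).card : ℕ) : ℝ) ≤ C₁ * ((B : ℝ) * |(D : ℝ)|) ^ η :=
    le_trans (by exact_mod_cast h4) h5
  have h8 : ((sol D k B).card : ℝ) ≤ ((units D (4 * D.natAbs * B ^ 2)).card : ℝ) *
      (k.natAbs.divisors.card : ℝ) * (k.natAbs.divisors.card : ℝ) := by exact_mod_cast h3
  have h9 : |(k : ℝ)| ^ (η / 2) * |(k : ℝ)| ^ (η / 2) = |(k : ℝ)| ^ η := by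
    rw [← Real.rpow_add (abs_pos.2 (by exact_mod_cast hk))]
    congr 1; ring
  calc ((sol D k B).card : ℝ) ≤ _ := h8
    _ ≤ (C₁ * ((B : ℝ) * |(D : ℝ)|) ^ η) * (C₂ * |(k : ℝ)| ^ (η / 2)) *
        (C₂ * |(k : ℝ)| ^ (η / 2)) := by gcongr
    _ = C₁ * (C₂ * C₂) * (((B : ℝ) * |(D : ℝ)|) ^ η * (|(k : ℝ)| ^ (η / 2) * |(k : ℝ)| ^ (η / 2))) := by
        ring
    _ = C₁ * (C₂ * C₂) * ((B : ℝ) * |(k : ℝ)| * |(D : ℝ)|) ^ η := by
        rw [h9, ← Real.mul_rpow (by positivity) (by positivity)]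
        congr 2
        ring

end Pool.Agent.Q184.T3
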